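import Pool.Agent.H69.GN.Stm2

set_option autoImplicit false

namespace Pool.Agent.H32.GN
open Pool.Agent.H69.GN Finset

open Classical in
theorem t_IND : S_IND := by
  intro V _ G k e par hpar hadj
  refine Finset.card_bij (fun S _ => S.map e.toEmbedding) ?_ ?_ ?_
  · intro S hS
    have hS' := (mem_filter.1 hS).2
    refine mem_filter.2 ⟨mem_univ _, fun i hi j hj hij => ?_⟩
    obtain ⟨x, hx, rfl⟩ := mem_map.1 hi
    obtain ⟨y, hy, rfl⟩ := mem_map.1 hj
    have hlt : e.toEmbedding x < e.toEmbedding y := by
      have := hpar (e.toEmbedding x)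
      rw [hij] at this
      exact this
    have := (hadj _ _ hlt).2 hij
    simp only [Equiv.coe_toEmbedding, Equiv.symm_apply_apply] at this
    exact hS' x hx y hy this
  · intro S _ T _ h
    exact Finset.map_injective _ h
  · intro D hD
    have hD' := (mem_filter.1 hD).2
    refine ⟨D.map e.symm.toEmbedding, mem_filter.2 ⟨mem_univ _, ?_⟩, ?_⟩
    · intro x hx y hy hxy
      obtain ⟨i, hi, rfl⟩ := mem_map.1 hx
      obtain ⟨j, hj, rfl⟩ := mem_map.1 hy
      simp only [Equiv.coe_toEmbedding] at hxy
      rcases lt_trichotomy i j with h | h | h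
      · exact hD' i hi j hj ((hadj i j h).1 hxy)
      · subst h; exact G.loopless.irrefl _ hxy
      · exact hD' j hj i hi ((hadj j i h).1 hxy.symm)
    · ext i
      simp [mem_map]

end Pool.Agent.H32.GN
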