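import Pool.Agent.H69.GN.Stm2

set_option autoImplicit false

namespace Pool.Agent.H32.GN
open Pool.Agent.H69.GN Finset

/-- a nonempty finite forest has a vertex with at most one neighbour -/
theorem leaf {V : Type} [Fintype V] [Nonempty V] (G : SimpleGraph V) (hG : G.IsAcyclic) :
    ∃ v, ∀ a b, G.Adj v a → G.Adj v b → a = b := by
  classical
  -- a path of maximal length
  let Q : ℕ → Prop := fun n => ∃ (u v : V) (p : G.Walk u v), p.IsPath ∧ p.length = n
  have hb : ∀ n, Q n → n ≤ Fintype.card V := by
    rintro n ⟨u, v, p, hp, rfl⟩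
    exact hp.length_lt.le
  have h0 : Q 0 := by
    obtain ⟨v⟩ := ‹Nonempty V›
    exact ⟨v, v, SimpleGraph.Walk.nil, SimpleGraph.Walk.IsPath.nil, rfl⟩
  have hQ : Q (Nat.findGreatest Q (Fintype.card V)) :=
    Nat.findGreatest_spec (Nat.zero_le _) h0
  obtain ⟨u, v, p, hp, hlen⟩ := hQ
  have hs : ∀ w, G.Adj v w → w ∈ p.support := by
    intro w hw
    by_contra hc
    have hp' := hp.concat hc hw
    have h1 : Q (Nat.findGreatest Q (Fintype.card V) + 1) :=
      ⟨u, w, p.concat hw, hp', by rw [SimpleGraph.Walk.length_concat, hlen]⟩
    have h2 := Nat.le_findGreatest (hb _ h1) h1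
    omega
  refine ⟨v, fun a b ha hb' => ?_⟩
  rw [hG.eq_penultimate_of_adj_end hp ha (hs a ha), hG.eq_penultimate_of_adj_end hp hb' (hs b hb')]

theorem ord_aux : ∀ (n : ℕ) (V : Type) [Fintype V] (G : SimpleGraph V), Fintype.card V = n →
    G.IsAcyclic → ∃ (k : ℕ) (e : V ≃ Fin k) (par : Fin k → Fin (k + 1)),
      (∀ i, i.castSucc < par i) ∧
      ∀ i j : Fin k, i < j → (G.Adj (e.symm i) (e.symm j) ↔ par i = j.castSucc) := by
  intro n
  induction n with
  | zero =>
    intro V _ G hc _
    have he : V ≃ Fin 0 := Fintype.equivFinOfCardEq hc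
    exact ⟨0, he, fun i => i.elim0, fun i => i.elim0, fun i => i.elim0⟩
  | succ n ih =>
    intro V _ G hc hG
    classical
    have : Nonempty V := Fintype.card_pos_iff.1 (by omega)
    obtain ⟨v, hv⟩ := leaf G hG
    have hc' : Fintype.card {x : V // x ≠ v} = n := by
      rw [Fintype.card_subtype_compl, Fintype.card_subtype_eq, hc]; rfl
    obtain ⟨k, e', par', hp1, hp2⟩ := ih {x : V // x ≠ v}
      (G.comap (Function.Embedding.subtype fun x => x ≠ v)) hc' (hG.of_comap _)
    let es : Fin (k + 1) ≃ V := (finSuccEquiv k).trans
      ((Equiv.optionCongr e'.symm).trans (Equiv.optionSubtypeNe v))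
    have es0 : es 0 = v := by
      show (Equiv.optionSubtypeNe v) (Option.map e'.symm (finSuccEquiv k 0)) = v
      rw [finSuccEquiv_zero]
      exact Equiv.optionSubtypeNe_none v
    have ess : ∀ i : Fin k, es i.succ = (e'.symm i : V) := by
      intro i
      show (Equiv.optionSubtypeNe v) (Option.map e'.symm (finSuccEquiv k i.succ)) = _
      rw [finSuccEquiv_succ]
      exact Equiv.optionSubtypeNe_some v _
    have hes : ∀ w, G.Adj v w → 0 < es.symm w := by
      intro w hw
      rw [Fin.pos_iff_ne_zero]
      intro h
      have : w = v := by rw [← es0, ← h, Equiv.apply_symm_apply]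
      exact G.loopless.irrefl v (this ▸ hw)
    let par : Fin (k + 1) → Fin (k + 1 + 1) := Fin.cons
      (if h : ∃ w, G.Adj v w then (es.symm h.choose).castSucc else Fin.last _)
      (fun i => (par' i).succ)
    refine ⟨k + 1, es.symm, par, fun i => ?_, fun i j hij => ?_⟩
    · refine Fin.cases ?_ (fun i => ?_) i
      · simp only [par, Fin.cons_zero, Fin.castSucc_zero]
        split_ifs with h
        · have := hes _ h.choose_spec
          rw [Fin.lt_def] at this ⊢
          simpa using this
        · exact Fin.last_pos
      · simp only [par, Fin.cons_succ]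
        have := hp1 i
        rw [Fin.lt_def] at this ⊢
        simpa using this
    · rw [Equiv.symm_symm]
      obtain ⟨j, rfl⟩ : ∃ j', j = Fin.succ j' := by
        refine Fin.exists_succ_eq.2 ?_ |>.imp fun _ h => h.symm
        rintro rfl
        exact absurd hij (Fin.not_lt_zero _)
      revert hij
      refine Fin.cases ?_ (fun i => ?_) i
      · intro _
        rw [es0]
        simp only [par, Fin.cons_zero]
        split_ifs with h
        · rw [Fin.castSucc_inj]
          constructor
          · intro ha
            rw [hv _ _ h.choose_spec ha, Equiv.symm_apply_apply]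
          · intro he
            rw [← he, Equiv.apply_symm_apply]
            exact h.choose_spec
        · constructor
          · intro ha; exact absurd ⟨_, ha⟩ h
          · intro ha
            exact absurd ha.symm (Fin.castSucc_lt_last _).ne
      · intro hij
        rw [ess, ess]
        simp only [par, Fin.cons_succ]
        have h := hp2 i j (by simpa using hij)
        rw [SimpleGraph.comap_adj] at h
        rw [← Fin.succ_castSucc, Fin.succ_inj]
        exact h

theorem t_ORD : S_ORD := fun V _ G hG => ord_aux _ V G rfl hG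

end Pool.Agent.H32.GN
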